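import Pool.Agent.H34.TAM.Stmts2

/-!
Board aut (MP_286349_an), row CPE, helper38: derivations and cyclic gradients.
-/

set_option autoImplicit false

noncomputable section

open scoped TensorProduct

namespace Pool.AUT

open Pool.CGR Pool.CGS Pool.TAM

namespace CPEh

theorem der_one {m : ℕ} (δ : Fr m →ₗ[ℂ] Fr m) (h : IsDer δ) : δ 1 = 0 := by
  have h1 := h 1 1
  rw [mul_one, mul_one, one_mul] at h1
  exact left_eq_add.1 h1

theorem lift_ev {m : ℕ} {A : Type} [Ring A] [Algebra ℂ A] (x : Fin m → A) (w : List (Fin m)) :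
    FreeAlgebra.lift ℂ x (ev io w) = ev x w := by
  induction w with
  | nil => simp [ev]
  | cons j w ih =>
    have e1 : ev (io : Fin m → Fr m) (j :: w) = io j * ev io w := by simp [ev]
    have e2 : ev x (j :: w) = x j * ev x w := by simp [ev]
    rw [e1, e2, map_mul, ih, io, FreeAlgebra.lift_ι_apply]

theorem der_ev {m : ℕ} {A : Type} [Ring A] [Algebra ℂ A] (x : Fin m → A)
    (δ : Fr m →ₗ[ℂ] Fr m) (h : IsDer δ) (w : List (Fin m)) :
    FreeAlgebra.lift ℂ x (δ (ev io w)) =
      ∑ k, dv x k (FreeAlgebra.lift ℂ x (δ (io k))) w := by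
  induction w with
  | nil =>
    have e1 : ev (io : Fin m → Fr m) [] = 1 := by simp [ev]
    rw [e1, der_one δ h, map_zero]
    symm
    exact Finset.sum_eq_zero fun k _ => (dvc_thm (Fin m) A x k _).1
  | cons j w ih =>
    have e1 : ev (io : Fin m → Fr m) (j :: w) = io j * ev io w := by simp [ev]
    have e3 : FreeAlgebra.lift ℂ x (io j) = x j := by rw [io, FreeAlgebra.lift_ι_apply]
    rw [e1, h, map_add, map_mul, map_mul, ih, lift_ev, e3]
    simp only [(dvc_thm (Fin m) A x _ _).2.1 j w]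
    rw [Finset.sum_add_distrib, Finset.mul_sum, Finset.sum_ite_eq]
    simp

end CPEh

theorem cpe_thm : CPEStmt := by
  intro m A _ _ τ hτ x δ hδ H
  have h1 : ∀ w : List (Fin m), τ (FreeAlgebra.lift ℂ x (δ (ev io w))) =
      ∑ k, τ (cg x k w * FreeAlgebra.lift ℂ x (δ (io k))) := by
    intro w
    rw [CPEh.der_ev x δ hδ w, map_sum]
    exact Finset.sum_congr rfl fun k _ => (cgt_thm (Fin m) A τ hτ x k _ w).symm
  have h2 : tx τ x (δ (pe io H)) =
      H.sum fun w r => r * τ (FreeAlgebra.lift ℂ x (δ (ev io w))) := by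
    unfold pe Finsupp.sum
    rw [map_sum, map_sum]
    refine Finset.sum_congr rfl fun w _ => ?_
    rw [map_smul, map_smul, smul_eq_mul]
    rfl
  rw [h2]
  have h3 : ∀ k : Fin m, τ (cp x k H * FreeAlgebra.lift ℂ x (δ (io k))) =
      H.sum fun w r => r * τ (cg x k w * FreeAlgebra.lift ℂ x (δ (io k))) := by
    intro k
    unfold cp Finsupp.sum
    rw [Finset.sum_mul, map_sum]
    refine Finset.sum_congr rfl fun w _ => ?_
    rw [smul_mul_assoc, map_smul, smul_eq_mul]
  rw [Finset.sum_congr rfl fun k _ => h3 k]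
  unfold Finsupp.sum
  rw [Finset.sum_comm]
  refine Finset.sum_congr rfl fun w _ => ?_
  change H w * τ (FreeAlgebra.lift ℂ x (δ (ev io w))) =
    ∑ k, H w * τ (cg x k w * FreeAlgebra.lift ℂ x (δ (io k)))
  rw [h1 w, Finset.mul_sum]

end Pool.AUT
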